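import Pool.Agent.Y17.G.Defs
import Pool.Agent.Z759.BSD.GENbB

/-!
`S_GENb3G`: the sum over the genus characters for a fixed `b`, norms `3 pr D1`, `3 pr D2`, split and
doubly inert primes.
-/

set_option autoImplicit false

namespace Pool.Agent.Y363.Z17G

open Finset
open Pool.Agent.Z700 (pr fac hh od)
open Pool.Agent.Z927 (pm_prod pm_pow js_prod_left js_pr pr_erase pr_coprime ee S3 mem_S3 mem_S3'
  js_unit s_unit D_decomp)
open Pool.Agent.Z759.BSD (sq_unit pm_cancel unit_of fac_three)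
open Pool.Agent.Y17.G

/-- split or doubly inert, different from three -/
def DN (p : ℕ) : Prop := (Pool.Agent.Y17.N.Sp p ∨ In p) ∧ p ≠ 3

theorem dn_facts {p : ℕ} (hp : DN p) :
    p.Prime ∧ p ≠ 2 ∧ p ≠ 3 ∧ p ≠ 7 ∧ Odd p ∧ (p % 8 = 1 ∨ p % 8 = 3 ∨ p % 8 = 5) := by
  obtain ⟨hp, h3⟩ := hp
  rcases hp with ⟨h1, h2, h4⟩ | ⟨h1, h2, h4⟩
  · refine ⟨h1, ?_, h3, ?_, Nat.odd_iff.2 ?_, Or.inl h2⟩ <;> omega
  · refine ⟨h1, ?_, h3, ?_, Nat.odd_iff.2 ?_, Or.inr h2⟩ <;> omega

/-- the sign of the reciprocity law -/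
def sg (p : ℕ) (n : ℕ) : ℤ := if p % 8 = 3 then jacobiSym (-1) n else 1

theorem sg_one (p : ℕ) : sg p 1 = 1 := by
  rw [sg]
  split_ifs <;> simp

theorem sg_mul (p : ℕ) {m n : ℕ} (hm : m ≠ 0) (hn : n ≠ 0) : sg p (m * n) = sg p m * sg p n := by
  rw [sg, sg, sg]
  split_ifs
  · have := NeZero.mk hm
    have := NeZero.mk hn
    exact jacobiSym.mul_right _ _ _
  · norm_num

theorem sg_pow (p : ℕ) {m : ℕ} (hm : m ≠ 0) (k : ℕ) : sg p (m ^ k) = sg p m ^ k := by
  induction k with
  | zero => rw [pow_zero, pow_zero, sg_one]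
  | succ k ih => rw [pow_succ, sg_mul p (pow_ne_zero k hm) hm, ih, pow_succ]

theorem sg_prod (p : ℕ) (s : Finset ℕ) (f : ℕ → ℕ) (hf : ∀ i ∈ s, f i ≠ 0) :
    sg p (∏ i ∈ s, f i) = ∏ i ∈ s, sg p (f i) := by
  classical
  induction s using Finset.induction_on with
  | empty => simp [sg_one]
  | insert a t ha ih =>
    rw [Finset.prod_insert ha, Finset.prod_insert ha, sg_mul p (hf a (Finset.mem_insert_self a t))
      (Finset.prod_ne_zero_iff.2 fun i hi => hf i (Finset.mem_insert_of_mem hi)),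
      ih fun i hi => hf i (Finset.mem_insert_of_mem hi)]

theorem sg_unit (p n : ℕ) : sg p n = 1 ∨ sg p n = -1 := by
  rw [sg]
  split_ifs
  · apply jacobiSym.eq_one_or_neg_one
    simp
  · exact Or.inl rfl

/-- the reciprocity law -/
theorem js_swap {p l : ℕ} (hp : DN p) (hl : Odd l) :
    jacobiSym (p : ℤ) l = jacobiSym (l : ℤ) p * sg p l := by
  obtain ⟨h1, h2, h3, h4, h5, h6⟩ := dn_facts hp
  rw [sg]
  by_cases h : p % 8 = 3
  · rw [if_pos h]
    have hp4 : p % 4 = 3 := by omega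
    rcases Nat.odd_mod_four_iff.1 (Nat.odd_iff.1 hl) with hl4 | hl4
    · rw [jacobiSym.quadratic_reciprocity_one_mod_four' h5 hl4, jacobiSym.at_neg_one hl,
        ZMod.χ₄_nat_one_mod_four hl4, mul_one]
    · rw [jacobiSym.quadratic_reciprocity_three_mod_four hp4 hl4, jacobiSym.at_neg_one hl,
        ZMod.χ₄_nat_three_mod_four hl4]
      ring
  · rw [if_neg h, mul_one]
    exact jacobiSym.quadratic_reciprocity_one_mod_four (by omega) hl

theorem dn_two_unit {p : ℕ} (hp : DN p) : jacobiSym 2 p = 1 ∨ jacobiSym 2 p = -1 := by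
  have := unit_of Nat.prime_two (dn_facts hp).1 (Ne.symm (dn_facts hp).2.1)
  exact_mod_cast this

theorem dn_three_unit {p : ℕ} (hp : DN p) : jacobiSym 3 p = 1 ∨ jacobiSym 3 p = -1 := by
  have := unit_of Nat.prime_three (dn_facts hp).1 (Ne.symm (dn_facts hp).2.2.1)
  exact_mod_cast this

theorem dn_seven_unit {p : ℕ} (hp : DN p) : jacobiSym 7 p = 1 ∨ jacobiSym 7 p = -1 := by
  have := unit_of (by norm_num : Nat.Prime 7) (dn_facts hp).1 (Ne.symm (dn_facts hp).2.2.2.1)
  exact_mod_cast this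

theorem dn_neg_unit {p : ℕ} (_ : DN p) : jacobiSym (-1) p = 1 ∨ jacobiSym (-1) p = -1 := by
  apply jacobiSym.eq_one_or_neg_one
  simp

theorem js_three {p : ℕ} (hp : DN p) : jacobiSym (p : ℤ) 3 =
    if p % 8 = 3 then -jacobiSym 3 p else jacobiSym 3 p := by
  have h := js_swap hp (l := 3) (by decide)
  rw [h, sg]
  have e : jacobiSym (-1) 3 = -1 := by norm_num
  split_ifs
  · rw [e]; push_cast; ring
  · push_cast; ring

/-- the three symbols together -/
theorem dn_total {p : ℕ} (hp : DN p) :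
    jacobiSym (-1) p * (jacobiSym 2 p * jacobiSym 7 p) = 1 := by
  obtain ⟨h1, h2, h3, h4, h5, h6⟩ := dn_facts hp
  have e7 := js_swap hp (l := 7) (by decide)
  have e7' : jacobiSym (-1) 7 = -1 := by norm_num
  have c7 : jacobiSym (7 : ℤ) p = jacobiSym (((7 : ℕ) : ℤ)) p := by norm_num
  rw [jacobiSym.at_two h5, jacobiSym.at_neg_one h5, ZMod.χ₈_nat_eq_if_mod_eight, c7]
  have h20 : ¬ p % 2 = 0 := by omega
  rw [jacobiSym.mod_left (p : ℤ) 7] at e7
  rcases hp.1 with ⟨-, h8, h9⟩ | ⟨-, h8, h9⟩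
  · have : (p : ℤ) % (7 : ℕ) = 1 ∨ (p : ℤ) % (7 : ℕ) = 2 ∨ (p : ℤ) % (7 : ℕ) = 4 := by
      push_cast; omega
    have e2 : jacobiSym ((p : ℤ) % (7 : ℕ)) 7 = 1 := by
      rcases this with h | h | h <;> rw [h]
      · exact jacobiSym.one_left 7
      · norm_num
      · norm_num
    have hs : ¬ p % 8 = 3 := by omega
    rw [e2, sg, if_neg hs, mul_one] at e7
    rw [← e7, ZMod.χ₄_nat_one_mod_four (by omega)]
    simp [h20, h8]
  · have : (p : ℤ) % (7 : ℕ) = 3 ∨ (p : ℤ) % (7 : ℕ) = 5 ∨ (p : ℤ) % (7 : ℕ) = 6 := by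
      push_cast; omega
    have e2 : jacobiSym ((p : ℤ) % (7 : ℕ)) 7 = -1 := by
      rcases this with h | h | h <;> rw [h] <;> norm_num
    rw [e2, sg] at e7
    rcases h8 with h8 | h8
    · rw [if_pos h8, e7'] at e7
      have e8 : jacobiSym (((7 : ℕ) : ℤ)) p = 1 := by linarith
      rw [e8, ZMod.χ₄_nat_three_mod_four (by omega)]
      simp [h20, h8]
    · have hs : ¬ p % 8 = 3 := by omega
      rw [if_neg hs, mul_one] at e7
      rw [← e7, ZMod.χ₄_nat_one_mod_four (by omega)]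
      simp [h20, h8]

theorem sg_self {p : ℕ} (hp : DN p) : sg p p = jacobiSym (-1) p := by
  obtain ⟨h1, h2, h3, h4, h5, h6⟩ := dn_facts hp
  rw [sg]
  split_ifs with h
  · rfl
  · rw [jacobiSym.at_neg_one h5, ZMod.χ₄_nat_one_mod_four (by omega)]

theorem ee_unit {P : Finset ℕ} (hP : ∀ p ∈ P, DN p) {D l : ℕ} (hl : l ∈ S3 D) {p : ℕ} (hp : p ∈ P) :
    ee P l p = 1 ∨ ee P l p = -1 := by
  obtain ⟨-, -, -, hlp, -⟩ := mem_S3 hl
  have hpp := (dn_facts (hP p hp)).1
  rw [ee]
  split_ifs with h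
  · exact js_unit (pr_coprime (fun q hq => (dn_facts (hP q (Finset.mem_of_mem_erase hq))).1) hpp
      (Finset.notMem_erase _ _))
  · exact js_unit ((Nat.coprime_primes hpp hlp).2 (fun e => h e.symm))

/-- primes of the family dividing `D` divide it exactly once -/
theorem dn_div {P : Finset ℕ} (hP : ∀ p ∈ P, DN p) {b : ℤ} {D : ℕ} (hD : 0 < D)
    (hDD : (D : ℤ) = 9 * (pr P : ℤ) - b ^ 2) {p : ℕ} (hp : p ∈ P) (hpD : p ∣ D) :
    ∃ D' : ℕ, D = p * D' ∧ ¬ p ∣ D' ∧ D.factorization p = 1 ∧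
      jacobiSym (D' : ℤ) p = jacobiSym (pr (P.erase p) : ℤ) p := by
  have hpp := (dn_facts (hP p hp)).1
  obtain ⟨D', rfl⟩ := hpD
  have e1 : (pr P : ℤ) = p * (pr (P.erase p) : ℤ) := by
    rw [pr_erase hp]; push_cast; ring
  have hb : (p : ℤ) ∣ b := by
    have : (p : ℤ) ∣ b ^ 2 := by
      refine ⟨9 * pr (P.erase p) - D', ?_⟩
      push_cast at hDD
      rw [e1] at hDD
      linarith
    exact (Nat.prime_iff_prime_int.1 hpp).dvd_of_dvd_pow this
  obtain ⟨c, rfl⟩ := hb
  have hp0 : (p : ℤ) ≠ 0 := by exact_mod_cast hpp.ne_zero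
  have e2 : (D' : ℤ) = 9 * pr (P.erase p) - p * c ^ 2 := by
    push_cast at hDD
    rw [e1] at hDD
    have : (p : ℤ) * D' = p * (9 * pr (P.erase p) - p * c ^ 2) := by linarith
    exact mul_left_cancel₀ hp0 this
  have hcop : Nat.Coprime (pr (P.erase p)) p :=
    pr_coprime (fun q hq => (dn_facts (hP q (Finset.mem_of_mem_erase hq))).1) hpp
      (Finset.notMem_erase _ _)
  have h3 := (dn_facts (hP p hp)).2.2.1
  have hcop9 : Nat.Coprime 9 p := by
    have : Nat.Coprime 3 p := (Nat.coprime_primes Nat.prime_three hpp).2 (fun e => h3 e.symm)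
    exact Nat.Coprime.pow_left 2 this
  have hn : ¬ p ∣ D' := by
    intro h
    have h1 : (p : ℤ) ∣ 9 * pr (P.erase p) := by
      have : (9 : ℤ) * pr (P.erase p) = D' + p * c ^ 2 := by rw [e2]; ring
      rw [this]
      exact dvd_add (by exact_mod_cast h) (Dvd.intro _ rfl)
    have h2 : p ∣ 9 * pr (P.erase p) := by exact_mod_cast h1
    have h4 : Nat.Coprime p (9 * pr (P.erase p)) := (Nat.Coprime.mul_left hcop9 hcop).symm
    have := Nat.Coprime.eq_one_of_dvd h4 h2
    exact hpp.one_lt.ne' this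
  refine ⟨D', rfl, hn, ?_, ?_⟩
  · have hD' : D' ≠ 0 := by
      rintro rfl
      simp at hD
    rw [Nat.factorization_mul hpp.ne_zero hD', Finsupp.add_apply, hpp.factorization_self,
      Nat.factorization_eq_zero_of_not_dvd hn]
  · have h5 : (D' : ℤ) % p = (9 * pr (P.erase p)) % p := by
      rw [e2, Int.sub_mul_emod_self_left]
    rw [jacobiSym.mod_left' h5, jacobiSym.mul_left]
    have : jacobiSym 9 p = 1 := by
      have : (9 : ℤ) = 3 ^ 2 := by norm_num
      rw [this, jacobiSym.pow_left]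
      exact sq_unit (dn_three_unit (hP p hp))
    rw [this, one_mul]

/-- the local factor as a geometric sum -/
theorem fac_eq {P : Finset ℕ} (hP : ∀ p ∈ P, DN p) {b : ℤ} {D : ℕ} (hD : 0 < D)
    (hDD : (D : ℤ) = 9 * (pr P : ℤ) - b ^ 2) {l : ℕ} (hl : l ∈ S3 D) {D1 : Finset ℕ}
    (h1 : D1 ⊆ P) :
    fac (3 * pr D1) D l = ∑ j ∈ range (D.factorization l + 1),
      (jacobiSym (-3) l * ∏ p ∈ D1, ee P l p) ^ j := by
  obtain ⟨h3, h7, h2, hlp, hlD⟩ := mem_S3 hl
  by_cases hd : l ∈ D1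
  · obtain ⟨D', hD1, hD2, hD3, hD4⟩ := dn_div hP hD hDD (h1 hd) hlD
    have e1 : 3 * pr D1 = l * (3 * pr (D1.erase l)) := by rw [pr_erase hd]; ring
    have hdiv : l ∣ 3 * pr D1 := by rw [e1]; exact Dvd.intro _ rfl
    rw [fac, if_pos hdiv, hD3, hh, hD3, if_neg (by decide)]
    have e2 : 3 * pr D1 / l = 3 * pr (D1.erase l) := by
      rw [e1, Nat.mul_div_cancel_left _ hlp.pos]
    have e3 : D / l ^ 1 = D' := by rw [pow_one, hD1, Nat.mul_div_cancel_left _ hlp.pos]
    rw [e2, e3, Finset.sum_range_succ, Finset.sum_range_one, pow_zero, pow_one]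
    congr 1
    have e4 : (-((3 * pr (D1.erase l) * D' : ℕ) : ℤ)) = (-3) * (pr (D1.erase l) : ℤ) * (D' : ℤ) := by
      push_cast; ring
    rw [e4, jacobiSym.mul_left, jacobiSym.mul_left, hD4, js_pr (D1.erase l),
      ← Finset.mul_prod_erase D1 (fun p => ee P l p) hd]
    have e5 : ee P l l = jacobiSym (pr (P.erase l) : ℤ) l := by rw [ee, if_pos rfl]
    have e6 : ∏ p ∈ D1.erase l, ee P l p = ∏ p ∈ D1.erase l, jacobiSym (p : ℤ) l := by
      refine Finset.prod_congr rfl fun p hp => ?_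
      rw [ee, if_neg]
      rintro rfl
      exact (Finset.mem_erase.1 hp).1 rfl
    rw [e5, e6]
    ring
  · have hdiv : ¬ l ∣ 3 * pr D1 := by
      intro h
      have c1 : Nat.Coprime (pr D1) l :=
        pr_coprime (fun q hq => (dn_facts (hP q (h1 hq))).1) hlp hd
      have c2 : Nat.Coprime 3 l := (Nat.coprime_primes Nat.prime_three hlp).2 (fun e => h3 e.symm)
      exact hlp.one_lt.ne' (Nat.Coprime.eq_one_of_dvd (Nat.Coprime.mul_left c2 c1).symm h)
    rw [fac, if_neg hdiv]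
    refine Finset.sum_congr rfl fun j _ => ?_
    congr 1
    have e4 : (-((3 * pr D1 : ℕ) : ℤ)) = (-3) * (pr D1 : ℤ) := by push_cast; ring
    rw [e4, jacobiSym.mul_left, js_pr]
    congr 1
    refine Finset.prod_congr rfl fun p hp => ?_
    rw [ee, if_neg]
    rintro rfl
    exact hd hp


/-- the total character -/
theorem ee_total {P : Finset ℕ} (hP : ∀ p ∈ P, DN p) {b : ℤ} {D : ℕ} (hD : 0 < D)
    (hDD : (D : ℤ) = 9 * (pr P : ℤ) - b ^ 2) {p : ℕ} (hp : p ∈ P) :
    ∏ l ∈ S3 D, (ee P l p) ^ (D.factorization l) =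
      sg p (∏ l ∈ S3 D, l ^ D.factorization l) * jacobiSym (-1) p *
      (jacobiSym 2 p ^ D.factorization 2 *
      (jacobiSym 7 p ^ D.factorization 7 * jacobiSym 3 p ^ D.factorization 3)) := by
  have hF := hP p hp
  have hpp := (dn_facts hF).1
  have hodd : ∀ l ∈ S3 D, Odd l := by
    intro l hl
    obtain ⟨-, -, h2, hlp, -⟩ := mem_S3 hl
    exact hlp.odd_of_ne_two h2
  have hpos : ∀ l ∈ S3 D, l ≠ 0 := fun l hl => (mem_S3 hl).2.2.2.1.ne_zero
  have hsw : ∀ s : Finset ℕ, s ⊆ S3 D → p ∉ s → ∏ l ∈ s, (ee P l p) ^ (D.factorization l) =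
      jacobiSym ((∏ l ∈ s, l ^ D.factorization l : ℕ) : ℤ) p *
        sg p (∏ l ∈ s, l ^ D.factorization l) := by
    intro s hs hps
    rw [sg_prod p s _ fun l hl => pow_ne_zero _ (hpos l (hs hl))]
    push_cast
    rw [js_prod_left, ← Finset.prod_mul_distrib]
    refine Finset.prod_congr rfl fun l hl => ?_
    rw [jacobiSym.pow_left, sg_pow p (hpos l (hs hl)), ee, if_neg, js_swap hF (hodd l (hs hl)),
      mul_pow]
    rintro rfl
    exact hps hl
  have hcu : jacobiSym 2 p ^ D.factorization 2 * (jacobiSym 7 p ^ D.factorization 7 *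
      jacobiSym 3 p ^ D.factorization 3) = 1 ∨
      jacobiSym 2 p ^ D.factorization 2 * (jacobiSym 7 p ^ D.factorization 7 *
      jacobiSym 3 p ^ D.factorization 3) = -1 := by
    rcases pm_pow _ (dn_two_unit hF) (D.factorization 2) with h | h <;>
    rcases pm_pow _ (dn_seven_unit hF) (D.factorization 7) with h' | h' <;>
    rcases pm_pow _ (dn_three_unit hF) (D.factorization 3) with h'' | h'' <;>
    rw [h, h', h''] <;> norm_num
  have hdec := D_decomp hD
  by_cases hpD : p ∣ D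
  · obtain ⟨D', hD1, hD2, hD3, hD4⟩ := dn_div hP hD hDD hp hpD
    have hpS : p ∈ S3 D := mem_S3' hD.ne' (dn_facts hF).2.2.1 (dn_facts hF).2.2.2.1
      (dn_facts hF).2.1 hpp hpD
    have h5 : ∏ l ∈ S3 D, l ^ D.factorization l =
        p * ∏ l ∈ (S3 D).erase p, l ^ D.factorization l := by
      rw [← Finset.mul_prod_erase (S3 D) (fun l => l ^ (D.factorization l)) hpS, hD3, pow_one]
    have hO0 : ∏ l ∈ (S3 D).erase p, l ^ D.factorization l ≠ 0 :=
      Finset.prod_ne_zero_iff.2 fun l hl => pow_ne_zero _ (hpos l (Finset.mem_of_mem_erase hl))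
    rw [← Finset.mul_prod_erase (S3 D) (fun l => (ee P l p) ^ (D.factorization l)) hpS,
      hsw _ (Finset.erase_subset _ _) (Finset.notMem_erase _ _), hD3, pow_one, h5,
      sg_mul p hpp.ne_zero hO0, sg_self hF]
    have e0 : ee P p p = jacobiSym (pr (P.erase p) : ℤ) p := by rw [ee, if_pos rfl]
    have e1 : D' = 2 ^ D.factorization 2 * (7 ^ D.factorization 7 * (3 ^ D.factorization 3 *
        ∏ l ∈ (S3 D).erase p, l ^ D.factorization l)) := by
      rw [h5] at hdec
      apply Nat.eq_of_mul_eq_mul_left hpp.pos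
      rw [← hD1]
      conv_lhs => rw [hdec]
      ring
    set Q := jacobiSym ((∏ l ∈ (S3 D).erase p, l ^ D.factorization l : ℕ) : ℤ) p with hQ
    have e2 : jacobiSym (D' : ℤ) p = (jacobiSym 2 p ^ D.factorization 2 *
      (jacobiSym 7 p ^ D.factorization 7 * jacobiSym 3 p ^ D.factorization 3)) * Q := by
      have : (D' : ℤ) = 2 ^ D.factorization 2 * (7 ^ D.factorization 7 * (3 ^ D.factorization 3 *
        ((∏ l ∈ (S3 D).erase p, l ^ D.factorization l : ℕ) : ℤ))) := by
        conv_lhs => rw [e1]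
        push_cast
        ring
      rw [this, jacobiSym.mul_left, jacobiSym.mul_left, jacobiSym.mul_left, jacobiSym.pow_left,
        jacobiSym.pow_left, jacobiSym.pow_left, hQ]
      ring
    have hu := js_unit (pr_coprime (A := P.erase p)
      (fun q hq => (dn_facts (hP q (Finset.mem_of_mem_erase hq))).1)
      hpp (Finset.notMem_erase _ _))
    rw [e0, ← hD4]
    rw [← hD4] at hu
    have hX : jacobiSym (D' : ℤ) p * Q = jacobiSym 2 p ^ D.factorization 2 *
      (jacobiSym 7 p ^ D.factorization 7 * jacobiSym 3 p ^ D.factorization 3) := by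
      apply pm_cancel hcu
      rw [← mul_assoc, mul_comm _ (jacobiSym (D' : ℤ) p), mul_assoc, ← e2, ← sq]
      exact sq_unit hu
    have hn2 := sq_unit (dn_neg_unit hF)
    rw [← hX]
    linear_combination (-(jacobiSym (D' : ℤ) p * Q *
      sg p (∏ l ∈ (S3 D).erase p, l ^ D.factorization l))) * hn2
  · have hpS : p ∉ S3 D := fun h => hpD (mem_S3 h).2.2.2.2
    rw [hsw _ (Finset.Subset.refl _) hpS]
    set Q := jacobiSym ((∏ l ∈ S3 D, l ^ D.factorization l : ℕ) : ℤ) p with hQ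
    have e2 : jacobiSym (D : ℤ) p = (jacobiSym 2 p ^ D.factorization 2 *
      (jacobiSym 7 p ^ D.factorization 7 * jacobiSym 3 p ^ D.factorization 3)) * Q := by
      have : (D : ℤ) = 2 ^ D.factorization 2 * (7 ^ D.factorization 7 * (3 ^ D.factorization 3 *
        ((∏ l ∈ S3 D, l ^ D.factorization l : ℕ) : ℤ))) := by
        conv_lhs => rw [hdec]
        push_cast
        ring
      rw [this, jacobiSym.mul_left, jacobiSym.mul_left, jacobiSym.mul_left, jacobiSym.pow_left,
        jacobiSym.pow_left, jacobiSym.pow_left, hQ]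
      ring
    have e1 : (pr P : ℤ) = p * (pr (P.erase p) : ℤ) := by
      rw [pr_erase hp]; push_cast; ring
    have hpb : ¬ (p : ℤ) ∣ b := by
      rintro ⟨c, rfl⟩
      apply hpD
      have : (p : ℤ) ∣ D := by
        rw [hDD, e1]
        exact ⟨9 * pr (P.erase p) - p * c ^ 2, by ring⟩
      exact_mod_cast this
    have e3 : (D : ℤ) % p = (-1 * b ^ 2) % p := by
      rw [hDD, e1]
      have : 9 * ((p : ℤ) * (pr (P.erase p) : ℤ)) - b ^ 2 =
        -1 * b ^ 2 + p * (9 * (pr (P.erase p) : ℤ)) := by ring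
      rw [this, Int.add_mul_emod_self_left]
    have hb2 : jacobiSym (b ^ 2) p = 1 := by
      apply jacobiSym.sq_one'
      rw [Int.gcd_comm]
      exact (Int.isCoprime_iff_gcd_eq_one).1
        ((Prime.coprime_iff_not_dvd (Nat.prime_iff_prime_int.1 hpp)).2 hpb)
    have e4 : jacobiSym (D : ℤ) p = jacobiSym (-1) p := by
      rw [jacobiSym.mod_left' e3, jacobiSym.mul_left, hb2, mul_one]
    have hn2 := sq_unit (dn_neg_unit hF)
    have hc2 := sq_unit hcu
    rw [e4] at e2
    generalize jacobiSym 2 p ^ D.factorization 2 * (jacobiSym 7 p ^ D.factorization 7 *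
      jacobiSym 3 p ^ D.factorization 3) = C at e2 hc2 ⊢
    rw [e2]
    linear_combination (-(Q * sg p (∏ l ∈ S3 D, l ^ D.factorization l))) * hc2

/-- the total character if the powers of `2` and `7` are odd -/
theorem ee_total' {P : Finset ℕ} (hP : ∀ p ∈ P, DN p) {b : ℤ} {D : ℕ} (hD : 0 < D)
    (hDD : (D : ℤ) = 9 * (pr P : ℤ) - b ^ 2) (h2 : Odd (D.factorization 2))
    (h7 : Odd (D.factorization 7)) {p : ℕ} (hp : p ∈ P) :
    ∏ l ∈ S3 D, (ee P l p) ^ (D.factorization l) =
      sg p (∏ l ∈ S3 D, l ^ D.factorization l) * jacobiSym 3 p ^ D.factorization 3 := by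
  have hF := hP p hp
  rw [ee_total hP hD hDD hp]
  obtain ⟨i, hi⟩ := h2
  obtain ⟨j, hj⟩ := h7
  have e1 : jacobiSym 2 p ^ D.factorization 2 = jacobiSym 2 p := by
    rw [hi, pow_succ, pow_mul, sq_unit (dn_two_unit hF), one_pow, one_mul]
  have e2 : jacobiSym 7 p ^ D.factorization 7 = jacobiSym 7 p := by
    rw [hj, pow_succ, pow_mul, sq_unit (dn_seven_unit hF), one_pow, one_mul]
  rw [e1, e2]
  linear_combination (sg p (∏ l ∈ S3 D, l ^ D.factorization l) *
    jacobiSym 3 p ^ D.factorization 3) * dn_total hF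

/-- a character which is a sign of the reciprocity law satisfies the condition -/
theorem cnd_sg {P : Finset ℕ} (c : ℕ → ℤ) (u v : ℤ) (h : ∀ p ∈ P, c p = if p % 8 = 3 then u else
    if p % 8 = 1 then 1 else v) : cnd P c := by
  refine ⟨fun p hp => ?_, fun r hr r' hr' => ?_, fun r hr r' hr' => ?_⟩
  · obtain ⟨h1, h2⟩ := Finset.mem_filter.1 hp
    rw [h p h1, if_neg (by omega), if_pos h2]
  · obtain ⟨h1, h2⟩ := Finset.mem_filter.1 hr
    obtain ⟨h1', h2'⟩ := Finset.mem_filter.1 hr'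
    rw [h r h1, h r' h1', if_pos h2, if_pos h2']
  · obtain ⟨h1, h2⟩ := Finset.mem_filter.1 hr
    obtain ⟨h1', h2'⟩ := Finset.mem_filter.1 hr'
    rw [h r h1, h r' h1', if_neg (by omega), if_neg (by omega), if_neg (by omega),
      if_neg (by omega)]

/-- multiplication by the sign of the reciprocity law does not change the condition -/
theorem cnd_mul_sg {P : Finset ℕ} (c : ℕ → ℤ) {n : ℕ} (hn : Odd n) :
    cnd P (fun p => c p * sg p n) ↔ cnd P c := by
  have h8 : ∀ p ∈ sp P, sg p n = 1 := by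
    intro p hp
    have h2 := (Finset.mem_filter.1 hp).2
    rw [sg, if_neg (by omega)]
  have h3 : ∀ p ∈ i3 P, sg p n = jacobiSym (-1) n := by
    intro p hp
    have h2 := (Finset.mem_filter.1 hp).2
    rw [sg, if_pos h2]
  have h5 : ∀ p ∈ i5 P, sg p n = 1 := by
    intro p hp
    have h2 := (Finset.mem_filter.1 hp).2
    rw [sg, if_neg (by omega)]
  have hu : jacobiSym (-1) n ≠ 0 := by
    have : jacobiSym (-1) n = 1 ∨ jacobiSym (-1) n = -1 := by
      apply jacobiSym.eq_one_or_neg_one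
      simp
    rcases this with h | h <;> rw [h] <;> norm_num
  unfold cnd
  refine and_congr ?_ (and_congr ?_ ?_)
  · refine forall₂_congr fun p hp => ?_
    beta_reduce
    rw [h8 p hp, mul_one]
  · refine forall₂_congr fun r hr => forall₂_congr fun r' hr' => ?_
    beta_reduce
    rw [h3 r hr, h3 r' hr']
    exact mul_left_inj' hu
  · refine forall₂_congr fun r hr => forall₂_congr fun r' hr' => ?_
    beta_reduce
    rw [h5 r hr, h5 r' hr', mul_one, mul_one]

/-- only the values on the set matter -/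
theorem cnd_congr {P : Finset ℕ} {c c' : ℕ → ℤ} (h : ∀ p ∈ P, c p = c' p) : cnd P c ↔ cnd P c' := by
  unfold cnd
  refine and_congr ?_ (and_congr ?_ ?_)
  · refine forall₂_congr fun p hp => ?_
    rw [h p (Finset.mem_filter.1 hp).1]
  · refine forall₂_congr fun r hr => forall₂_congr fun r' hr' => ?_
    rw [h r (Finset.mem_filter.1 hr).1, h r' (Finset.mem_filter.1 hr').1]
  · refine forall₂_congr fun r hr => forall₂_congr fun r' hr' => ?_
    rw [h r (Finset.mem_filter.1 hr).1, h r' (Finset.mem_filter.1 hr').1]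

/-- the condition in terms of `od D` -/
theorem cond_iff {P : Finset ℕ} (hP : ∀ p ∈ P, DN p) {b : ℤ} {D : ℕ} (hD : 0 < D)
    (hDD : (D : ℤ) = 9 * (pr P : ℤ) - b ^ 2) (h3 : ¬ 3 ∣ D) :
    ((∀ l ∈ S3 D, Even (D.factorization l)) ∧
      cnd P fun p => ∏ l ∈ S3 D, (ee P l p) ^ (D.factorization l / 2)) ↔
    ∃ y : ℕ, od D = y ^ 2 ∧ Cond y P := by
  have hodd : ∀ l ∈ S3 D, Odd l := by
    intro l hl
    obtain ⟨-, -, h2, hlp, -⟩ := mem_S3 hl
    exact hlp.odd_of_ne_two h2
  have hpos : ∀ l ∈ S3 D, l ≠ 0 := fun l hl => (mem_S3 hl).2.2.2.1.ne_zero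
  have hod : od D = ∏ l ∈ S3 D, l ^ D.factorization l := by
    have hdec := D_decomp hD
    rw [Nat.factorization_eq_zero_of_not_dvd h3, pow_zero, one_mul, ← mul_assoc] at hdec
    rw [od]
    apply Nat.div_eq_of_eq_mul_right
    · positivity
    · exact hdec
  have hYodd : Odd (∏ l ∈ S3 D, l ^ (D.factorization l / 2)) :=
    Finset.prod_induction _ Odd (fun _ _ => Odd.mul) odd_one fun l hl => (hodd l hl).pow
  have key : (∀ l ∈ S3 D, Even (D.factorization l)) → ∀ p ∈ P,
      ∏ l ∈ S3 D, (ee P l p) ^ (D.factorization l / 2) =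
      jacobiSym ((∏ l ∈ S3 D, l ^ (D.factorization l / 2) : ℕ) : ℤ) p *
        sg p (∏ l ∈ S3 D, l ^ (D.factorization l / 2)) := by
    intro hev p hp
    rw [sg_prod p _ _ fun l hl => pow_ne_zero _ (hpos l hl)]
    push_cast
    rw [js_prod_left, ← Finset.prod_mul_distrib]
    refine Finset.prod_congr rfl fun l hl => ?_
    rw [jacobiSym.pow_left, sg_pow p (hpos l hl), ee, if_neg, js_swap (hP p hp) (hodd l hl),
      mul_pow]
    rintro rfl
    obtain ⟨D', hD1, hD2, hD3, hD4⟩ := dn_div hP hD hDD hp (mem_S3 hl).2.2.2.2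
    have := hev l hl
    rw [hD3] at this
    exact absurd this (by decide)
  constructor
  · rintro ⟨hev, h⟩
    refine ⟨∏ l ∈ S3 D, l ^ (D.factorization l / 2), ?_, ?_⟩
    · rw [hod, ← Finset.prod_pow]
      refine Finset.prod_congr rfl fun l hl => ?_
      rw [← pow_mul, Nat.div_mul_cancel (even_iff_two_dvd.1 (hev l hl))]
    · rw [cnd_congr (key hev), cnd_mul_sg (fun p =>
        jacobiSym ((∏ l ∈ S3 D, l ^ (D.factorization l / 2) : ℕ) : ℤ) p) hYodd] at h
      exact h
  · rintro ⟨y, hy, hyp⟩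
    have hdec : D = 2 ^ D.factorization 2 * (7 ^ D.factorization 7 * y ^ 2) := by
      have hdec := D_decomp hD
      rwa [Nat.factorization_eq_zero_of_not_dvd h3, pow_zero, one_mul, ← hod, hy] at hdec
    have hy0 : y ≠ 0 := by
      rintro rfl
      rw [hdec] at hD
      simp at hD
    have hfac : ∀ l ∈ S3 D, D.factorization l = 2 * y.factorization l := by
      intro l hl
      obtain ⟨-, h7, h2, hlp, -⟩ := mem_S3 hl
      conv_lhs => rw [hdec]
      rw [Nat.factorization_mul (by positivity) (by positivity),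
        Nat.factorization_mul (by positivity) (by positivity), Nat.factorization_pow,
        Nat.factorization_pow, Nat.factorization_pow]
      simp only [Finsupp.add_apply, Finsupp.smul_apply, smul_eq_mul]
      rw [Nat.Prime.factorization Nat.prime_two, Nat.Prime.factorization (by norm_num : Nat.Prime 7),
        Finsupp.single_eq_of_ne h2, Finsupp.single_eq_of_ne h7]
      ring
    have hev : ∀ l ∈ S3 D, Even (D.factorization l) := fun l hl => by
      rw [hfac l hl]; exact even_two_mul _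
    have hyy : ∏ l ∈ S3 D, l ^ (D.factorization l / 2) = y := by
      have e : (∏ l ∈ S3 D, l ^ (D.factorization l / 2)) ^ 2 = y ^ 2 := by
        rw [← hy, hod, ← Finset.prod_pow]
        refine Finset.prod_congr rfl fun l hl => ?_
        rw [← pow_mul, Nat.div_mul_cancel (even_iff_two_dvd.1 (hev l hl))]
      exact Nat.pow_left_injective (n := 2) (by norm_num) e
    refine ⟨hev, ?_⟩
    rw [cnd_congr (key hev), cnd_mul_sg (fun p =>
        jacobiSym ((∏ l ∈ S3 D, l ^ (D.factorization l / 2) : ℕ) : ℤ) p) hYodd, hyy]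
    exact hyp


/-- GENb3G -/
theorem t_GENb3G (hA1 : S_ABS1) (hA2 : S_ABS2) (hA3 : S_ABS3) : S_GENb3G := by
  classical
  intro P hCl _ hne b hbo D hD hDD h2
  have hP : ∀ p ∈ P, DN p := fun p hp => ⟨hCl.1 p hp, fun h => hCl.2 (h ▸ hp)⟩
  have hP8 : ∀ p ∈ P, p % 8 = 1 ∨ p % 8 = 3 ∨ p % 8 = 5 := fun p hp =>
    (dn_facts (hP p hp)).2.2.2.2.2
  have hadm : ∀ D1 ∈ adm 0 P, D1 ⊆ P := by
    intro D1 h
    rw [adm, Finset.mem_filter, Finset.mem_powerset] at h
    exact h.1
  have h3u : ∀ p ∈ P, jacobiSym (p : ℤ) 3 = 1 ∨ jacobiSym (p : ℤ) 3 = -1 := fun p hp => by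
    have h := unit_of (dn_facts (hP p hp)).1 Nat.prime_three (dn_facts (hP p hp)).2.2.1
    exact_mod_cast h
  -- the two basic sums
  obtain ⟨N1, hN1, hN1'⟩ := hA1 (S3 D) (fun i => D.factorization i)
    (fun i => jacobiSym (-3) i) (fun i p => ee P i p) (fun _ => 1) P 0 (Or.inl rfl) hP8
    (fun i => s_unit i.2) (fun i p hp => ee_unit hP i.2 hp) (fun p _ => Or.inl rfl)
  obtain ⟨N3, hN3, hN3'⟩ := hA1 (S3 D) (fun i => D.factorization i)
    (fun i => jacobiSym (-3) i) (fun i p => ee P i p) (fun p => jacobiSym (p : ℤ) 3) P 0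
    (Or.inl rfl) hP8 (fun i => s_unit i.2) (fun i p hp => ee_unit hP i.2 hp) h3u
  have hprod : ∀ D1 ∈ adm 0 P, ∏ i : S3 D, ∑ j ∈ range (D.factorization i + 1),
        (jacobiSym (-3) i * ∏ p ∈ D1, ee P i p) ^ j = ∏ l ∈ S3 D, fac (3 * pr D1) D l := by
    intro D1 hD1
    rw [← Finset.prod_coe_sort (S3 D) (fun l => fac (3 * pr D1) D l)]
    refine Finset.prod_congr rfl fun i _ => ?_
    exact (fac_eq hP hD hDD i.2 (hadm D1 hD1)).symm
  have hM1 : ∑ D1 ∈ adm 0 P, ∏ l ∈ S3 D, fac (3 * pr D1) D l = 2 ^ ex P * N1 := by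
    rw [← hN1]
    refine Finset.sum_congr rfl fun D1 hD1 => ?_
    rw [Finset.prod_const_one, one_mul, hprod D1 hD1]
  have hM3 : ∑ D1 ∈ adm 0 P, (∏ p ∈ D1, jacobiSym (p : ℤ) 3) *
      ∏ l ∈ S3 D, fac (3 * pr D1) D l = 2 ^ ex P * N3 := by
    rw [← hN3]
    refine Finset.sum_congr rfl fun D1 hD1 => ?_
    rw [hprod D1 hD1]
  have hee : ∀ p, (∏ i : S3 D, (ee P i p) ^ (D.factorization i)) =
      ∏ l ∈ S3 D, (ee P l p) ^ (D.factorization l) := fun p =>
    Finset.prod_coe_sort (S3 D) (fun l => (ee P l p) ^ (D.factorization l))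
  by_cases hb3 : (3 : ℤ) ∣ b
  · have hfalse : ¬ (¬ (3 : ℤ) ∣ b ∧ ∃ y : ℕ, od D = y ^ 2 ∧ Cond y P) := fun h => h.1 hb3
    have hD3 : 3 ∣ D := by
      obtain ⟨c, rfl⟩ := hb3
      have : (3 : ℤ) ∣ D := ⟨3 * pr P - 3 * c ^ 2, by rw [hDD]; ring⟩
      exact_mod_cast this
    have hmem : 3 ∈ (D.primeFactors.erase 2).erase 7 := by
      rw [Finset.mem_erase, Finset.mem_erase, Nat.mem_primeFactors]
      exact ⟨by norm_num, by norm_num, Nat.prime_three, hD3, hD.ne'⟩
    obtain ⟨c, hc, hfac⟩ := fac_three hD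
    have hterm : ∀ D1 ∈ adm 0 P,
        ∏ l ∈ (D.primeFactors.erase 2).erase 7, fac (3 * pr D1) D l =
          (1 + (if Even (D.factorization 3) then c else (∏ p ∈ D1, jacobiSym (p : ℤ) 3) * c)) *
          ∏ l ∈ S3 D, fac (3 * pr D1) D l := by
      intro D1 hD1
      rw [← Finset.mul_prod_erase _ _ hmem, hfac D1]
      rfl
    rw [Finset.sum_congr rfl hterm]
    by_cases hv : Even (D.factorization 3)
    · -- even power of three
      simp only [if_pos hv]
      have e1 : ∑ D1 ∈ adm 0 P, (1 + c) *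
          ∏ l ∈ S3 D, fac (3 * pr D1) D l = (1 + c) * (2 ^ ex P * N1) := by
        rw [← hM1, Finset.mul_sum]
      refine ⟨(1 + c) * N1, by rw [e1]; ring, fun _ => ⟨fun h => ?_, fun h => absurd h hfalse⟩⟩
      exfalso
      have hev : Even ((1 + c) * N1) := by
        rcases hc with h' | h' <;> rw [h']
        · exact ⟨N1, by ring⟩
        · exact ⟨0, by ring⟩
      exact (Int.not_even_iff_odd.2 h) hev
    · -- odd power of three
      simp only [if_neg hv]
      have e1 : ∑ D1 ∈ adm 0 P, (1 + (∏ p ∈ D1, jacobiSym (p : ℤ) 3) * c) *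
          ∏ l ∈ S3 D, fac (3 * pr D1) D l = 2 ^ ex P * N1 + c * (2 ^ ex P * N3) := by
        rw [← hM3, ← hM1, Finset.mul_sum, ← Finset.sum_add_distrib]
        refine Finset.sum_congr rfl fun D1 hD1 => ?_
        ring
      refine ⟨N1 + c * N3, by rw [e1]; ring,
        fun h7 => ⟨fun h => ?_, fun h => absurd h hfalse⟩⟩
      exfalso
      have hvo : Odd (D.factorization 3) := Nat.not_even_iff_odd.1 hv
      have hcard : (TC (ι := S3 D) (fun i => D.factorization i) (fun i p => ee P i p)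
          (fun _ => 1) P).card = (TC (ι := S3 D) (fun i => D.factorization i)
          (fun i p => ee P i p) (fun p => jacobiSym (p : ℤ) 3) P).card := by
        refine hA3 (S3 D) _ _ _ _ P hP8 (fun i p hp => ee_unit hP i.2 hp)
          (fun p _ => Or.inl rfl) h3u ?_
        refine cnd_sg _ (-jacobiSym (-1) (∏ l ∈ S3 D, l ^ D.factorization l)) 1 fun p hp => ?_
        have hF := hP p hp
        have e3 : jacobiSym 3 p ^ D.factorization 3 = jacobiSym 3 p := by
          obtain ⟨i, hi⟩ := hvo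
          rw [hi, pow_succ, pow_mul, sq_unit (dn_three_unit hF), one_pow, one_mul]
        have hq := sq_unit (dn_three_unit hF)
        rw [hee p, ee_total' hP hD hDD h2 h7 hp, e3, js_three hF, sg]
        rcases hP8 p hp with h8 | h8 | h8
        · rw [if_neg (by omega), if_neg (by omega), if_neg (by omega), if_pos h8]
          linear_combination hq
        · rw [if_pos h8, if_pos h8, if_pos h8]
          linear_combination (-jacobiSym (-1) (∏ l ∈ S3 D, l ^ D.factorization l)) * hq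
        · rw [if_neg (by omega), if_neg (by omega), if_neg (by omega), if_neg (by omega)]
          linear_combination hq
      have hpar : Odd N3 ↔ Odd N1 := by rw [hN3', hN1', hcard]
      have hev : Even (N1 + c * N3) := by
        have hcN : Odd (c * N3) ↔ Odd N3 := by
          rcases hc with h' | h' <;> rw [h']
          · rw [one_mul]
          · rw [neg_one_mul, odd_neg]
        rw [Int.even_add, ← Int.not_odd_iff_even, ← Int.not_odd_iff_even, hcN, hpar]
      exact (Int.not_even_iff_odd.2 h) hev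
  · have hD3 : ¬ 3 ∣ D := by
      intro h
      apply hb3
      have : (3 : ℤ) ∣ b ^ 2 := by
        have h1 : (3 : ℤ) ∣ D := by exact_mod_cast h
        have : b ^ 2 = 9 * (pr P : ℤ) - D := by rw [hDD]; ring
        rw [this]
        exact dvd_sub ⟨3 * pr P, by ring⟩ h1
      exact Int.prime_three.dvd_of_dvd_pow this
    have hnm : 3 ∉ (D.primeFactors.erase 2).erase 7 := by
      rw [Finset.mem_erase, Finset.mem_erase, Nat.mem_primeFactors]
      rintro ⟨-, -, -, h, -⟩
      exact hD3 h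
    have hS : (D.primeFactors.erase 2).erase 7 = S3 D := by
      rw [S3, Finset.erase_eq_of_notMem hnm]
    refine ⟨N1, ?_, fun h7 => ?_⟩
    · rw [hS]
      exact hM1
    · have hcp := hA2 (S3 D) (fun i => D.factorization i) (fun i p => ee P i p) P hP8
        (fun i p hp => ee_unit hP i.2 hp) (by
          refine cnd_sg _ (jacobiSym (-1) (∏ l ∈ S3 D, l ^ D.factorization l)) 1 fun p hp => ?_
          rw [hee p, ee_total' hP hD hDD h2 h7 hp,
            Nat.factorization_eq_zero_of_not_dvd hD3, pow_zero, mul_one, sg]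
          rcases hP8 p hp with h8 | h8 | h8
          · rw [if_neg (by omega), if_neg (by omega), if_pos h8]
          · rw [if_pos h8, if_pos h8]
          · rw [if_neg (by omega), if_neg (by omega), if_neg (by omega)])
      rw [hN1', hcp, ← cond_iff hP hD hDD hD3]
      have hfun : (fun p => ∏ i : S3 D, (ee P i p) ^ (D.factorization i / 2)) =
          fun p => ∏ l ∈ S3 D, (ee P l p) ^ (D.factorization l / 2) := by
        funext p
        exact Finset.prod_coe_sort (S3 D) (fun l => (ee P l p) ^ (D.factorization l / 2))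
      rw [hfun]
      constructor
      · rintro ⟨h1, h2⟩
        exact ⟨hb3, fun l hl => h1 ⟨l, hl⟩, h2⟩
      · rintro ⟨-, h1, h2⟩
        exact ⟨fun i => h1 i.1 i.2, h2⟩

end Pool.Agent.Y363.Z17G
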